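import Pool.Agent.Helper6.O3.St

/-!
# Project O3, module AS: soundness in the degenerate case
-/

set_option autoImplicit false

namespace Pool.Agent.Helper29.O3

open Pool.Agent.Helper6.O3 Filter Topology
open Pool.Agent.Helper99.DF (T TL sq chk Cert ver StVER StTRA StCMP StSND StPR1 StPRC StVP)

/-- The values and the ratios from `n1` on. -/
theorem pos_AS (c : ℕ → ℝ) (n1 : ℕ) (P Q : ℝ) (hP : 0 ≤ P) (hd : 4 * Q ≤ P ^ 2)
    (hrec : ∀ i, n1 ≤ i → c (i + 2) = P * c (i + 1) - Q * c i) (hini : P * c n1 ≤ 2 * c (n1 + 1))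
    (h0 : 0 ≤ c n1) : ∀ j, 0 ≤ c (n1 + j) ∧ P * c (n1 + j) ≤ 2 * c (n1 + j + 1) := by
  intro j
  induction j with
  | zero => exact ⟨h0, hini⟩
  | succ j ih =>
    obtain ⟨h1, h2⟩ := ih
    have h3 : 0 ≤ P * c (n1 + j) := mul_nonneg hP h1
    have h4 : 0 ≤ c (n1 + j + 1) := by linarith
    refine ⟨h4, ?_⟩
    have h5 := hrec (n1 + j) (by omega)
    have h6 : 4 * Q * c (n1 + j) ≤ P ^ 2 * c (n1 + j) := mul_le_mul_of_nonneg_right hd h1
    have h7 : P * (P * c (n1 + j)) ≤ P * (2 * c (n1 + j + 1)) := mul_le_mul_of_nonneg_left h2 hP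
    have h8 : c (n1 + (j + 1) + 1) = c (n1 + j + 2) := rfl
    have h9 : c (n1 + (j + 1)) = c (n1 + j + 1) := rfl
    rw [h8, h9, h5]
    nlinarith

/-- The second iterate is geometric from `n1 + 1` on. -/
theorem geo_AS (c : ℕ → ℝ) (n1 : ℕ) (P Q : ℝ)
    (hrec : ∀ i, n1 ≤ i → c (i + 2) = P * c (i + 1) - Q * c i) (j : ℕ) :
    T c (n1 + j + 2) = Q * T c (n1 + j + 1) := by
  have h1 := hrec (n1 + j) (by omega)
  have h2 := hrec (n1 + j + 1) (by omega)
  have e1 : T c (n1 + j + 2) = c (n1 + j + 2) ^ 2 - c (n1 + j + 1) * c (n1 + j + 1 + 2) := rfl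
  have e2 : T c (n1 + j + 1) = c (n1 + j + 1) ^ 2 - c (n1 + j) * c (n1 + j + 2) := rfl
  have h3 : c (n1 + j + 1 + 1) = c (n1 + j + 2) := rfl
  rw [h3] at h2
  rw [e1, e2, h2]
  linear_combination (c (n1 + j + 2)) * h1

theorem hAS : StAS := by
  intro c n1 P Q hP hQ hd hrec hini hfin hInf
  have hpos := pos_AS c n1 P Q hP hd hrec hini (hfin n1 (by omega)).1
  have hgeo := geo_AS c n1 P Q hrec
  have hc : ∀ k, 0 ≤ c k := by
    intro k
    rcases Nat.lt_or_ge k n1 with h | h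
    · exact (hfin k (by omega)).1
    · obtain ⟨j, rfl⟩ := Nat.exists_eq_add_of_le h
      exact (hpos j).1
  have hD' : ∀ j, 0 ≤ T c (n1 + j + 1) := by
    intro j
    induction j with
    | zero => exact (hfin (n1 + 1) (by omega)).2
    | succ j ih =>
      have h := hgeo j
      have h' : T c (n1 + (j + 1) + 1) = T c (n1 + j + 2) := rfl
      rw [h', h]
      exact mul_nonneg hQ ih
  have hD : ∀ k, 0 ≤ T c k := by
    intro k
    rcases Nat.lt_or_ge n1 k with h | h
    · obtain ⟨j, rfl⟩ := Nat.exists_eq_add_of_lt h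
      exact hD' j
    · exact (hfin k (by omega)).2
  have hTT : T (T c) = lb (n1 + 1) (T (T c)) := by
    funext k
    unfold lb
    split_ifs with h
    · rfl
    · obtain ⟨j, rfl⟩ := Nat.exists_eq_add_of_le (show n1 + 2 ≤ k by omega)
      have e0 : n1 + 2 + j = n1 + j + 2 := by omega
      rw [e0]
      have e1 : T (T c) (n1 + j + 2) = T c (n1 + j + 2) ^ 2 - T c (n1 + j + 1) * T c (n1 + j + 3) := rfl
      have h1 := hgeo j
      have h2 := hgeo (j + 1)
      have h3 : T c (n1 + (j + 1) + 2) = T c (n1 + j + 3) := rfl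
      have h4 : T c (n1 + (j + 1) + 1) = T c (n1 + j + 2) := rfl
      rw [h3, h4] at h2
      rw [e1, h2, h1]
      ring
  intro t k
  match t with
  | 0 => exact hc k
  | 1 => exact hD k
  | t + 2 =>
    have e : (T^[t + 2] c) = T^[t] (T (T c)) := rfl
    rw [e, hTT]
    exact hInf t k

end Pool.Agent.Helper29.O3
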